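import Mathlib
import Pool.Agent.H40.PF.Cover

/-!
# Every three-vertex path of a connected bridgeless cubic graph is in a `k`-fold `P₃`-factor

A `k`-fold `P₃`-factor of `G` (`IsFold G k P`) is a finite multiset `P` of three-vertex paths of
`G` such that every vertex of `G` is on exactly `k` of them, counted with multiplicity; for
`k = 1` this is a `P₃`-factor. Counting incidences, it can exist only if `3` divides `k * |V|`.
The theorem gives it for every `k ≥ 2`, and through every prescribed three-vertex path.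
-/

namespace Pool.Agent.Results.MP_acccd7_co.KFoldPathFactor

open SimpleGraph Pool.Agent.H40.PF

theorem key3 {V : Type*} [Fintype V] [DecidableEq V] (G : SimpleGraph V) [DecidableRel G.Adj]
    (hcub : ∀ v, G.degree v = 3) (hbr : Bridgeless G) {x y z : V} (hxy : G.Adj x y)
    (hyz : G.Adj y z) (hxz : x ≠ z) : ∃ P, IsFold G 3 P ∧ (x, y, z) ∈ P := by
  classical
  -- the third neighbour of `y`
  obtain ⟨w, hw, hwx, hwz⟩ : ∃ w, G.Adj y w ∧ w ≠ x ∧ w ≠ z := by
    by_contra hcon
    push Not at hcon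
    have hsub : G.neighborFinset y ⊆ {x, z} := by
      intro w hw
      rw [mem_neighborFinset] at hw
      rw [Finset.mem_insert, Finset.mem_singleton]
      by_cases h : w = x
      · left; exact h
      · right; exact hcon w hw h
    have h1 := Finset.card_le_card hsub
    rw [card_neighborFinset_eq_degree, hcub, Finset.card_pair hxz] at h1
    omega
  obtain ⟨f, h1, h2, h3⟩ := exists_pm G hcub hbr hw
  obtain ⟨F, hF⟩ := exists_frame G hcub h1 h2
  have hm : F.m y = w := by rw [hF, h3]
  have hx : ∃ i, x = F.h y i := by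
    rcases F.all y x hxy.symm with h | h
    · exact absurd (h.trans hm).symm hwx
    · exact h
  have hz : ∃ i, z = F.h y i := by
    rcases F.all y z hyz with h | h
    · exact absurd (h.trans hm).symm hwz
    · exact h
  obtain ⟨i, hi⟩ := hx
  obtain ⟨j, hj⟩ := hz
  have hmem : (F.h y false, y, F.h y true) ∈ tri F := by
    unfold tri
    rw [Multiset.mem_map]
    exact ⟨y, Finset.mem_univ_val y, rfl⟩
  have hfold := isFold_tri F
  cases i <;> cases j
  · exact absurd (hi.trans hj.symm) hxz
  · refine ⟨tri F, hfold, ?_⟩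
    rw [hi, hj]; exact hmem
  · refine hfold.flip ?_
    rw [hi, hj]; exact hmem
  · exact absurd (hi.trans hj.symm) hxz

theorem key2 {V : Type*} [Fintype V] [DecidableEq V] (G : SimpleGraph V) [DecidableRel G.Adj]
    (hG : G.Connected) (hcub : ∀ v, G.degree v = 3) (hbr : Bridgeless G)
    (h3 : 3 ∣ Fintype.card V) {x y z : V} (hxy : G.Adj x y)
    (hyz : G.Adj y z) (hxz : x ≠ z) : ∃ P, IsFold G 2 P ∧ (x, y, z) ∈ P := by
  classical
  obtain ⟨f, h1, h2, hf⟩ := exists_pm G hcub hbr hyz
  obtain ⟨F, hF⟩ := exists_frame G hcub h1 h2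
  have hm : F.m y = z := by rw [hF, hf]
  obtain ⟨j, hj⟩ : ∃ j, x = F.h y j := by
    rcases F.all y x hxy.symm with h | h
    · exact absurd (h.trans hm) hxz
    · exact h
  obtain ⟨s, hs, hall⟩ := exists_two F hG h3
  obtain ⟨P, hP, hmem, -, -⟩ := hall (F.al (y, j))
  refine ⟨P, hP, ?_⟩
  have e0 : F.seq s (F.al (y, j)) 0 = F.al (y, j) := by
    have := F.seq_even s (F.al (y, j)) 0
    simpa using this
  have e1 : F.seq s (F.al (y, j)) 1 = (y, j) := by
    have := F.seq_step_even s (F.al (y, j)) 0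
    simp only [Nat.mul_zero, Nat.zero_add] at this
    rw [this, e0, F.al_al]
  have e2 : F.seq s (F.al (y, j)) 2 = F.be s (y, j) := by
    have := F.seq_step_odd s (F.al (y, j)) 0
    simp only [Nat.mul_zero, Nat.zero_add] at this
    rw [this, e1]
  rw [e0, e1, e2, F.be_fst, F.al_fst, ← hj, hm] at hmem
  exact hmem

theorem exists_fold {V : Type*} [Fintype V] [DecidableEq V] (G : SimpleGraph V)
    [DecidableRel G.Adj] (hG : G.Connected) (hcub : ∀ v, G.degree v = 3) (hbr : Bridgeless G)
    (k : ℕ) (hk : 2 ≤ k) (h3 : 3 ∣ k * Fintype.card V)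
    (x y z : V) (hxy : G.Adj x y) (hyz : G.Adj y z) (hxz : x ≠ z) :
    ∃ P : Multiset (V × V × V), IsFold G k P ∧ (x, y, z) ∈ P := by
  by_cases hV : 3 ∣ Fintype.card V
  · obtain ⟨P2, hP2, hm2⟩ := key2 G hG hcub hbr hV hxy hyz hxz
    rcases Nat.even_or_odd' k with ⟨a, ha | ha⟩
    · refine ⟨a • P2, ?_, ?_⟩
      · rw [ha, mul_comm]; exact hP2.nsmul a
      · exact Multiset.mem_nsmul.2 ⟨by omega, hm2⟩
    · obtain ⟨P3, hP3, hm3⟩ := key3 G hcub hbr hxy hyz hxz
      refine ⟨P3 + (a - 1) • P2, ?_, ?_⟩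
      · have h5 : k = 3 + (a - 1) * 2 := by omega
        rw [h5]; exact hP3.add (hP2.nsmul (a - 1))
      · rw [Multiset.mem_add]; left; exact hm3
  · have h4 : 3 ∣ k := (Nat.Coprime.dvd_mul_right
      ((Nat.Prime.coprime_iff_not_dvd Nat.prime_three).2 hV)).1 h3
    obtain ⟨b, hb⟩ := h4
    obtain ⟨P3, hP3, hm3⟩ := key3 G hcub hbr hxy hyz hxz
    refine ⟨b • P3, ?_, ?_⟩
    · rw [hb, mul_comm]; exact hP3.nsmul b
    · exact Multiset.mem_nsmul.2 ⟨by omega, hm3⟩

/-- **Theorem.** Let `G` be a finite connected cubic graph without bridges and let `k ≥ 2`. Then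
`3` divides `k * |V|` if and only if for every three-vertex path `x - y - z` of `G` there is a
multiset of three-vertex paths of `G`, containing the path `x - y - z`, such that every vertex of
`G` is on exactly `k` of them. -/
theorem result {V : Type*} [Fintype V] [DecidableEq V] (G : SimpleGraph V) [DecidableRel G.Adj]
    (hG : G.Connected) (hcub : ∀ v, G.degree v = 3) (hbr : ∀ e ∈ G.edgeSet, ¬ G.IsBridge e)
    (k : ℕ) (hk : 2 ≤ k) :
    3 ∣ k * Fintype.card V ↔
      ∀ x y z : V, G.Adj x y → G.Adj y z → x ≠ z →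
        ∃ P : Multiset (V × V × V), IsFold G k P ∧ (x, y, z) ∈ P := by
  have hbr' : Bridgeless G := by
    intro a b hab
    have h1 := hbr s(a, b) hab
    rw [isBridge_iff, not_not] at h1
    exact h1
  refine ⟨fun h3 x y z hxy hyz hxz =>
    exists_fold G hG hcub hbr' k hk h3 x y z hxy hyz hxz, fun h => ?_⟩
  obtain ⟨y⟩ := hG.nonempty
  have hc : 1 < (G.neighborFinset y).card := by
    rw [card_neighborFinset_eq_degree, hcub]; omega
  rw [Finset.one_lt_card] at hc
  obtain ⟨x, hx, z, hz, hxz⟩ := hc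
  rw [mem_neighborFinset] at hx hz
  obtain ⟨P, hP, -⟩ := h x y z hx.symm hz hxz
  exact hP.dvd

end Pool.Agent.Results.MP_acccd7_co.KFoldPathFactor
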